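import Mathlib
import Pool.Agent.BSI.Stmts

set_option autoImplicit false

/-! Squad BSI, row IH2: small integer points on the generator (after `Helper94_BSH/IHT.lean`). -/

namespace Pool.Agent.BSI.H97

open MvPolynomial Pool.Agent.Helper78_ACIT Pool.Agent.BSH Pool.Agent.BSI

theorem map_ext {R S : Type} [CommRing R] [CommRing S] (φ : R →+* S) {N : ℕ} (ξ : Fin N → R)
    (i : ℕ) : φ (ext ξ i) = ext (fun j => φ (ξ j)) i := by
  unfold BSH.ext
  split_ifs
  · rfl
  · exact map_zero φ

theorem map_pt {R S : Type} [CommRing R] [CommRing S] (φ : R →+* S) (r q C : ℕ) (t : ℕ → R)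
    (i : ℕ) : φ (pt r q C t i) = pt r q C (fun j => φ (t j)) i := by
  unfold pt
  split_ifs
  · rfl
  · rw [map_sum]
    apply Finset.sum_congr rfl
    intro m _
    rw [map_mul, map_pow, map_pow, map_add, map_natCast, map_one]
  · exact map_zero φ

theorem degreeOf_pt {τ : Type} (s : τ) (r q c : ℕ) (t : ℕ → MvPolynomial τ ℤ)
    (ht : ∀ i, degreeOf s (t i) ≤ 1) (i : ℕ) : degreeOf s (pt r q c t i) ≤ 2 ^ (q * c) + 1 := by
  classical
  unfold pt
  split_ifs with h1 h2
  · exact (ht i).trans (Nat.le_add_left 1 _)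
  · refine (degreeOf_sum_le _ _ _).trans (Finset.sup_le fun m _ => ?_)
    refine (degreeOf_mul_le _ _ _).trans ?_
    have h3 : ((m : MvPolynomial τ ℤ) + 1) ^ ((i - 4 * r) % r) =
        C (((m : ℤ) + 1) ^ ((i - 4 * r) % r)) := by
      simp
    rw [h3, degreeOf_C, zero_add]
    refine (degreeOf_pow_le _ _ _).trans ?_
    have h4 : (i - 4 * r) / r < c := by
      have hr : 0 < r := by
        rcases Nat.eq_zero_or_pos r with h | h
        · subst h; omega
        · exact h
      rw [Nat.div_lt_iff_lt_mul hr, Nat.mul_comm c r]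
      omega
    have h5 : 2 ^ (q * ((i - 4 * r) / r + 1)) ≤ 2 ^ (q * c) :=
      Nat.pow_le_pow_right (by norm_num) (Nat.mul_le_mul_left q h4)
    calc (2 ^ (q * ((i - 4 * r) / r + 1)) + 1) * degreeOf s (t m)
        ≤ (2 ^ (q * ((i - 4 * r) / r + 1)) + 1) * 1 := Nat.mul_le_mul_left _ (ht m)
      _ ≤ 2 ^ (q * c) + 1 := by omega
  · rw [degreeOf_zero]
    exact Nat.zero_le _

theorem ih2 : Ih2Stmt := by
  classical
  intro E _ _ r q c Δ P hD Q h1 hdvd
  obtain ⟨ξ0, h1⟩ := h1
  obtain ⟨H, hH⟩ : ∃ H : MvPolynomial (Fin (4 * r)) ℤ, H = aeval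
    (pt r q c (ext (fun j => (X j : MvPolynomial (Fin (4 * r)) ℤ)))) P := ⟨_, rfl⟩
  have hgen : ∀ (S : Type) [CommRing S] (φ : MvPolynomial (Fin (4 * r)) ℤ →+* S) (i : ℕ),
      φ (pt r q c (ext (fun j => (X j : MvPolynomial (Fin (4 * r)) ℤ))) i) =
        pt r q c (ext (fun j => φ (X j))) i := by
    intro S _ φ i
    rw [map_pt]
    congr 1
    funext m
    exact map_ext φ _ m
  have heval : ∀ x : Fin (4 * r) → ℤ, eval x H = eval (pt r q c (ext x)) P := by
    intro x
    rw [hH]
    have h3 : (eval x).comp (aeval (R := ℤ)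
        (pt r q c (ext (fun j => (X j : MvPolynomial (Fin (4 * r)) ℤ))))).toRingHom =
        eval (pt r q c (ext x)) := by
      apply MvPolynomial.ringHom_ext
      · intro a
        simp
      · intro i
        simp only [AlgHom.toRingHom_eq_coe, RingHom.coe_comp, RingHom.coe_coe,
          Function.comp_apply, aeval_X, eval_X]
        rw [hgen _ (eval x)]
        simp only [eval_X]
    exact RingHom.congr_fun h3 P
  have hHne : H ≠ 0 := by
    intro hH0
    apply h1
    obtain ⟨g, hg⟩ := hdvd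
    rw [hg, map_mul]
    have h3 : (eval (pt r q c (ext ξ0))).comp (map (Int.castRingHom E)) =
        (eval₂Hom (Int.castRingHom E) ξ0).comp (aeval (R := ℤ)
        (pt r q c (ext (fun j => (X j : MvPolynomial (Fin (4 * r)) ℤ))))).toRingHom := by
      apply MvPolynomial.ringHom_ext
      · intro a
        simp
      · intro i
        simp only [AlgHom.toRingHom_eq_coe, RingHom.coe_comp, RingHom.coe_coe,
          Function.comp_apply, aeval_X, map_X, eval_X]
        rw [hgen _ (eval₂Hom (Int.castRingHom E) ξ0)]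
        simp only [coe_eval₂Hom, eval₂_X]
    have h4 := RingHom.congr_fun h3 P
    simp only [AlgHom.toRingHom_eq_coe, RingHom.coe_comp, RingHom.coe_coe,
      Function.comp_apply] at h4
    rw [h4, ← hH, hH0, map_zero, zero_mul]
  by_contra hcon
  push Not at hcon
  apply hHne
  apply eq_zero_of_eval_zero_at_prod_finset H
    (fun _ => (Finset.range (Δ * (2 ^ (q * c) + 1) + 1)).image (fun a : ℕ => (a : ℤ)))
  · intro i
    rw [Finset.card_image_of_injective _ Nat.cast_injective, Finset.card_range, hH]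
    refine Nat.lt_succ_of_le ?_
    rw [Nat.mul_comm Δ]
    refine Pool.Agent.UO.degreeOf_aeval_le _ P (2 ^ (q * c) + 1) Δ i (fun j => ?_) hD
    refine degreeOf_pt i r q c _ (fun k => ?_) j
    unfold BSH.ext
    split_ifs
    · rw [degreeOf_X]
      split_ifs <;> omega
    · rw [degreeOf_zero]
      exact Nat.zero_le _
  · intro x hx
    have hx' : ∀ i, ∃ a : ℕ, a ≤ Δ * (2 ^ (q * c) + 1) ∧ (a : ℤ) = x i := by
      intro i
      obtain ⟨a, ha, ha'⟩ := Finset.mem_image.mp (hx i)
      exact ⟨a, Nat.lt_succ_iff.mp (Finset.mem_range.mp ha), ha'⟩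
    choose a ha ha' using hx'
    rw [heval]
    have := hcon a ha
    simpa only [ha'] using this

end Pool.Agent.BSI.H97
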